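import Pool.Agent.H.MP_42dd51_an.C

set_option autoImplicit false
open scoped Classical ComplexConjugate symmDiff

namespace Pool.Agent.H.MP_ab5103_an
open Pool.Agent.H.MP_42dd51_an

noncomputable def dX (n m : ℕ) : ℕ := if n = m then 0 else max n m + 1

noncomputable def big (y y' : ℕ × Finset ℕ) : ℕ :=
  max (max y.1 y'.1 + 1) ((y.2 ∆ y'.2).sup (fun i => i + 1))

noncomputable def dY (y y' : ℕ × Finset ℕ) : ℕ := if y = y' then 0 else big y y'

theorem big_ultra (x y z : ℕ × Finset ℕ) : big x z ≤ max (big x y) (big y z) := by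
  unfold big
  have h : (x.2 ∆ z.2).sup (fun i => i + 1) ≤
      max ((x.2 ∆ y.2).sup (fun i => i + 1)) ((y.2 ∆ z.2).sup (fun i => i + 1)) := by
    have h1 : x.2 ∆ z.2 ⊆ x.2 ∆ y.2 ∪ y.2 ∆ z.2 := symmDiff_triangle x.2 y.2 z.2
    refine (Finset.sup_mono h1).trans ?_
    rw [Finset.sup_union]
  omega

theorem big_comm (x y : ℕ × Finset ℕ) : big x y = big y x := by
  unfold big
  rw [symmDiff_comm, max_comm x.1]

theorem dY_ultra (x y z : ℕ × Finset ℕ) : dY x z ≤ max (dY x y) (dY y z) := by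
  have := big_ultra x y z
  unfold dY
  split_ifs with h1 h2 h3 h3 h2 h3 h3
  all_goals first | omega | (subst_vars; first | omega | contradiction)

theorem dY_comm (x y : ℕ × Finset ℕ) : dY x y = dY y x := by
  unfold dY
  rw [big_comm]
  by_cases h : x = y
  · simp [h]
  · simp [h, Ne.symm h]

def X : Type := ℕ
def Y : Type := X × Finset ℕ

noncomputable instance : MetricSpace X := mkMetric dX (fun x => by simp [dX])
  (fun x y => by unfold dX; split_ifs <;> omega)
  (fun x y z => by unfold dX; split_ifs <;> omega)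
  (fun x y => by
    unfold dX
    split_ifs with h
    · exact fun _ => h
    · intro h'; exact h'.elim)

noncomputable instance : MetricSpace Y := mkMetric dY (fun x => by simp [dY])
  dY_comm
  (fun x y z => by have := dY_ultra x y z; omega)
  (fun x y => by
    unfold dY big
    split_ifs with h
    · exact fun _ => h
    · intro h'; omega)

theorem distX (x y : X) : dist x y = (dX x y : ℝ) := rfl
theorem distY (x y : Y) : dist x y = (dY x y : ℝ) := rfl

theorem ballX (r : ℝ) : ∃ C : ℕ, ∀ x : X, ∃ s : Finset X, s.card ≤ C ∧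
    ∀ x', dist x x' ≤ r → x' ∈ s := by
  obtain ⟨N, hN⟩ := exists_nat_ge r
  refine ⟨N + 1, fun x => ⟨insert x (Finset.range N : Finset ℕ), ?_, fun x' h => ?_⟩⟩
  · refine (Finset.card_insert_le _ _).trans ?_
    have : (Finset.range N).card = N := Finset.card_range N
    exact Nat.succ_le_succ this.le
  · rw [distX] at h
    have h2 : dX x x' ≤ N := by exact_mod_cast h.trans hN
    unfold dX at h2
    rw [Finset.mem_insert]
    split_ifs at h2 with h3
    · exact Or.inl h3.symm
    · right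
      have : (show ℕ from x') < N := by
        have := le_max_right (show ℕ from x) (show ℕ from x')
        exact lt_of_le_of_lt this h2
      exact Finset.mem_range.2 this

theorem ballY (r : ℝ) : ∃ C : ℕ, ∀ x : Y, ∃ s : Finset Y, s.card ≤ C ∧
    ∀ x', dist x x' ≤ r → x' ∈ s := by
  obtain ⟨N, hN⟩ := exists_nat_ge r
  refine ⟨(Finset.range N ×ˢ (Finset.range N).powerset).card + 1, fun x =>
    ⟨insert x ((Finset.range N ×ˢ (Finset.range N).powerset).image
      (fun w : ℕ × Finset ℕ => ((w.1, x.2 ∆ w.2) : Y))), ?_, fun x' h => ?_⟩⟩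
  · exact (Finset.card_insert_le _ _).trans (Nat.succ_le_succ Finset.card_image_le)
  · rw [distY] at h
    have h2 : dY x x' ≤ N := by exact_mod_cast h.trans hN
    unfold dY big at h2
    rw [Finset.mem_insert]
    split_ifs at h2 with h3
    · exact Or.inl h3.symm
    · right
      rw [Finset.mem_image]
      obtain ⟨n, g⟩ := x
      obtain ⟨n', g'⟩ := x'
      refine ⟨(n', g ∆ g'), ?_, by simp⟩
      rw [max_le_iff, Finset.sup_le_iff] at h2
      simp only [Finset.mem_product, Finset.mem_range, Finset.mem_powerset]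
      refine ⟨lt_of_le_of_lt (le_max_right _ _) h2.1, fun i hi => Finset.mem_range.2 (h2.2 i hi)⟩

theorem ulf_of {Z : Type} [MetricSpace Z] (h : ∀ r : ℝ, ∃ C : ℕ, ∀ x : Z, ∃ s : Finset Z,
    s.card ≤ C ∧ ∀ x', dist x x' ≤ r → x' ∈ s) (r : ℝ) :
    ∃ N : ℕ, ∀ x : Z, (Metric.closedBall x r).encard ≤ (N : ℕ∞) := by
  obtain ⟨C, hC⟩ := h r
  refine ⟨C, fun x => ?_⟩
  obtain ⟨s, hs, hs'⟩ := hC x
  have : Metric.closedBall x r ⊆ (s : Set Z) := fun y hy => hs' y (by rwa [dist_comm])
  refine (Set.encard_le_encard this).trans ?_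
  rw [Set.encard_coe_eq_coe_finsetCard]
  exact_mod_cast hs

theorem propA (R : ℝ) (hR : 0 < R) : ∃ ρ : Y → Y, (∀ y, dist y (ρ y) ≤ R) ∧
    ∀ y y', dist y y' ≤ R → ρ y = ρ y' := by
  have hu : ∀ a b c : Y, dist a b ≤ R → dist b c ≤ R → dist a c ≤ R := by
    intro a b c h1 h2
    rw [distY] at *
    have := dY_ultra a b c
    have h3 : (dY a c : ℝ) ≤ max (dY a b : ℝ) (dY b c) := by exact_mod_cast this
    exact h3.trans (max_le h1 h2)
  have : Nonempty Y := ⟨((0 : ℕ), ∅)⟩
  refine ⟨fun y => Classical.epsilon (fun w => dist y w ≤ R), fun y =>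
    Classical.epsilon_spec (p := fun w => dist y w ≤ R) ⟨y, by simp [hR.le]⟩, fun y y' h => ?_⟩
  have : (fun w => dist y w ≤ R) = (fun w => dist y' w ≤ R) := by
    ext w
    exact ⟨fun h2 => hu _ _ _ (by rwa [dist_comm]) h2, fun h2 => hu _ _ _ h h2⟩
  simp only [this]

def σ (n : ℕ) (g : Finset ℕ) : Finset ℕ := g ∆ {n}

theorem hσ (n : ℕ) (g : Finset ℕ) : σ n (σ n g) = g := by
  unfold σ; simp

theorem σ_ne (n : ℕ) (g : Finset ℕ) : σ n g ≠ g := by
  unfold σ
  intro h
  have := symmDiff_eq_left.1 h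
  exact Finset.singleton_ne_empty _ this

noncomputable def z (n : ℕ) : ℂ := if Even n then 1 else Complex.I

theorem hz (n : ℕ) : ‖z n‖ = 1 := by
  unfold z; split_ifs <;> simp

theorem hd (r e : ℝ) (he : 0 < e) : ∃ s : ℝ, ∀ y y' : ℕ × Finset ℕ, (dX y.1 y'.1 : ℝ) ≤ r →
    (dY y y' : ℝ) ≤ s ∨ ‖cf σ z y y'‖ ≤ e := by
  refine ⟨max r 0, ?_⟩
  rintro ⟨n, g⟩ ⟨n', g'⟩ h
  by_cases hn : n = n'
  · subst hn
    by_cases hg : g = g'
    · subst hg
      left; simp [dY]
    · right
      have h1 := mul_conj_one (hz n)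
      have : cf σ z (n, g) (n, g') = 0 := by
        unfold cf
        have e1 : (g = σ n g') ↔ (σ n g = g') := by
          constructor
          · rintro rfl; exact hσ _ _
          · rintro rfl; exact (hσ _ _).symm
        have e2 : ¬ (σ n g = σ n g') := fun h => hg (by rw [← hσ n g, h, hσ])
        simp only [e1, if_neg hg, if_neg e2]
        split_ifs
        · linear_combination (-1 / 2 : ℂ) * h1
        · simp
      rw [this]; simpa using he.le
  · by_cases hb : (n', g') ∈ nb σ (n, g) n'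
    · left
      refine le_trans ?_ (h.trans (le_max_left _ _))
      have : dY (n, g) (n', g') ≤ dX n n' := by
        unfold dY dX big
        rw [if_neg (fun h => hn (Prod.mk.inj h).1), if_neg hn]
        refine max_le le_rfl (Finset.sup_le fun i hi => ?_)
        simp only [nb, σ, Finset.mem_insert, Finset.mem_singleton, Prod.mk.injEq, true_and] at hb
        have : i = n ∨ i = n' := by
          rcases hb with rfl | rfl | rfl | rfl <;>
            simp only [Finset.mem_symmDiff, Finset.mem_singleton] at hi <;> tauto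
        rcases this with rfl | rfl
        · exact Nat.succ_le_succ (le_max_left _ _)
        · exact Nat.succ_le_succ (le_max_right _ _)
      exact_mod_cast this
    · right
      rw [cf_zero hσ z hb]; simpa using he.le

theorem far (n : ℕ) (g g' : Finset ℕ) (h : g ≠ g') (s : ℝ) (hs : s ≤ n) :
    s < (dY (n, g) (n, g') : ℝ) := by
  have : n + 1 ≤ dY (n, g) (n, g') := by
    unfold dY big
    rw [if_neg (fun h' => h (Prod.mk.inj h').2)]
    exact le_trans (by simp) (le_max_left _ _)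
  have h2 : ((n + 1 : ℕ) : ℝ) ≤ dY (n, g) (n, g') := by exact_mod_cast this
  push_cast at h2
  linarith

theorem core {U : E2 (ℕ × Finset ℕ) →L[ℂ] E2 (ℕ × Finset ℕ)} (hU : IsU σ z U)
    (p : E2 (ℕ × Finset ℕ) →L[ℂ] E2 (ℕ × Finset ℕ))
    (hp : p ∈ closure (FPs (ℕ × Finset ℕ) (fun y y' => (dY y y' : ℝ)))) (hpp : p * p = p)
    (hc : ∀ x x', p * Phi U (mu x x') = Phi U (mu x x') * p) (h0 : p ≠ 0) (x0 : ℕ) :
    ¬ IsCompactOperator (p * Phi U (mu x0 x0) * p :
      E2 (ℕ × Finset ℕ) →L[ℂ] E2 (ℕ × Finset ℕ)) := by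
  have h1 := hU.mul_star hσ hz
  have h2 := hU.star_mul hσ hz
  obtain ⟨q, hq⟩ : ∃ q, q = star U * p * U := ⟨_, rfl⟩
  have hpq : p = U * q * star U := by
    rw [hq]
    calc p = (U * star U) * p * (U * star U) := by rw [h1]; simp
      _ = _ := by noncomm_ring
  have hqq : q * q = q := by
    rw [hq]
    calc _ = star U * p * (U * star U) * p * U := by noncomm_ring
      _ = star U * (p * p) * U := by rw [h1]; noncomm_ring
      _ = _ := by rw [hpp]
  have hqc : ∀ x x', q * amp (Finset ℕ) (mu x x') = amp (Finset ℕ) (mu x x') * q := by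
    intro x x'
    rw [← Phi_unconj h2, hq]
    calc _ = star U * p * (U * star U) * Phi U (mu x x') * U := by noncomm_ring
      _ = star U * (p * Phi U (mu x x')) * U := by rw [h1]; noncomm_ring
      _ = star U * Phi U (mu x x') * (U * star U) * p * U := by rw [h1, hc]; noncomm_ring
      _ = _ := by noncomm_ring
  have hE := comm_ent hqc x0
  obtain ⟨e, he⟩ : ∃ e : Finset ℕ → Finset ℕ → ℂ, ∀ g g', e g g' = ent q (x0, g) (x0, g') :=
    ⟨_, fun _ _ => rfl⟩
  simp only [← he] at hE
  have hP := ent_conj hσ hz hU q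
  rw [← hpq] at hP
  have s1 : ∀ g g', g ≠ g' → e g g' = 0 := by
    intro g g' hg
    apply norm_le_zero_iff.1
    apply le_of_forall_pos_le_add
    intro ε hε
    obtain ⟨s, hs⟩ := decay _ hp ε hε
    obtain ⟨N, hN⟩ := exists_nat_ge s
    have h3 := hs ((2 * N : ℕ), g) ((2 * N : ℕ), g') (far _ _ _ hg s (by
      show s ≤ ((2 * N : ℕ) : ℝ)
      push_cast
      linarith [Nat.cast_nonneg (α := ℝ) N]))
    have h4 : z (2 * N : ℕ) = 1 := by unfold z; rw [if_pos (by simp)]
    rw [hP] at h3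
    simp only [hE, h4, if_true] at h3
    simpa using h3
  have s2 : ∃ N : ℕ, ∀ k, N ≤ k → ∀ g,
      ‖e g g - e (σ (2 * k + 1 : ℕ) g) (σ (2 * k + 1 : ℕ) g)‖ ≤ 1 / 2 := by
    obtain ⟨s, hs⟩ := decay _ hp (1 / 4) (by norm_num)
    obtain ⟨N, hN⟩ := exists_nat_ge s
    refine ⟨N, fun k hk g => ?_⟩
    have hk' : (N : ℝ) ≤ k := by exact_mod_cast hk
    have h3 := hs ((2 * k + 1 : ℕ), g) ((2 * k + 1 : ℕ), σ (2 * k + 1 : ℕ) g)
      (far _ _ _ (σ_ne _ _).symm s (by
      show s ≤ ((2 * k + 1 : ℕ) : ℝ)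
      push_cast
      linarith [Nat.cast_nonneg (α := ℝ) N]))
    have h4 : z (2 * k + 1 : ℕ) = Complex.I := by unfold z; rw [if_neg (by simp)]
    rw [hP] at h3
    simp only [hE, h4, if_true, hσ, s1 _ _ (σ_ne _ _), s1 _ _ (σ_ne _ _).symm, Complex.conj_I] at h3
    have h5 : e g g - e (σ (2 * k + 1 : ℕ) g) (σ (2 * k + 1 : ℕ) g) = (-2 * Complex.I) *
        ((1 + Complex.I) / 2 * ((1 + -Complex.I) / 2 * 0 + (1 - -Complex.I) / 2 * e g g) +
        (1 - Complex.I) / 2 * ((1 + -Complex.I) / 2 *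
          e (σ (2 * k + 1 : ℕ) g) (σ (2 * k + 1 : ℕ) g) + (1 - -Complex.I) / 2 * 0)) := by
      linear_combination (e g g * (1 + Complex.I / 2) -
        e (σ (2 * k + 1 : ℕ) g) (σ (2 * k + 1 : ℕ) g) * (1 - Complex.I / 2)) * Complex.I_sq
    rw [h5, norm_mul]
    have : ‖-2 * Complex.I‖ = 2 := by simp
    rw [this]
    linarith
  have s3 : ∀ x g, q (sg (x, g)) = e g g • sg (x, g) := by
    intro x g
    ext ⟨x', g'⟩
    have := hE (x', g') (x, g)
    unfold ent at this
    rw [this]
    simp only [lp.coeFn_smul, Pi.smul_apply, smul_eq_mul, sg_apply, Prod.mk.injEq]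
    by_cases a1 : x' = x <;> by_cases a2 : g' = g <;> simp [a1, a2, s1]
  have s4 : ∀ g, e g g = 0 ∨ e g g = 1 := by
    intro g
    have a1 : q (q (sg (x0, g))) (x0, g) = q (sg (x0, g)) (x0, g) :=
      congrArg (fun T : E2 (ℕ × Finset ℕ) →L[ℂ] E2 (ℕ × Finset ℕ) => T (sg (x0, g)) (x0, g)) hqq
    rw [s3, map_smul, s3] at a1
    simp only [lp.coeFn_smul, Pi.smul_apply, smul_eq_mul, sg_apply, if_true, mul_one] at a1
    have : e g g * (e g g - 1) = 0 := by linear_combination a1
    rcases mul_eq_zero.1 this with h | h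
    · exact Or.inl h
    · exact Or.inr (sub_eq_zero.1 h)
  have s5 : ∃ g, e g g = 1 := by
    by_contra! hne
    apply h0
    have : q = 0 := by
      apply ent_ext
      rintro y ⟨x, g⟩
      unfold ent
      rw [s3, (s4 g).resolve_right (hne g), zero_smul]
      rfl
    rw [hpq, this]; simp
  obtain ⟨g, hg⟩ := s5
  obtain ⟨N, hN⟩ := s2
  have s6 : ∀ k, e (σ (2 * (N + k) + 1 : ℕ) g) (σ (2 * (N + k) + 1 : ℕ) g) = 1 := by
    intro k
    refine (s4 _).resolve_left fun h => ?_
    have := hN (N + k) (Nat.le_add_right _ _) g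
    rw [h, hg] at this
    norm_num at this
  intro hK
  have hK2 : IsCompactOperator (q * amp (Finset ℕ) (mu x0 x0) * q :
      E2 (ℕ × Finset ℕ) →L[ℂ] E2 (ℕ × Finset ℕ)) := by
    have : q * amp (Finset ℕ) (mu x0 x0) * q = star U * (p * Phi U (mu x0 x0) * p) * U := by
      rw [← Phi_unconj h2, hq]
      calc _ = star U * p * (U * star U) * Phi U (mu x0 x0) * (U * star U) * p * U := by
            noncomm_ring
        _ = _ := by rw [h1]; noncomm_ring
    rw [this]
    exact (hK.comp_clm U).clm_comp (star U)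
  refine not_compact _ (fun k => (x0, σ (2 * (N + k) + 1 : ℕ) g)) ?_ ?_ hK2
  · intro k k' h
    have h3 : g ∆ {2 * (N + k) + 1} = g ∆ {2 * (N + k') + 1} := (Prod.mk.inj h).2
    have h4 := Finset.singleton_injective (symmDiff_right_injective g h3)
    omega
  · intro k
    show q (amp (Finset ℕ) (mu x0 x0) (q (sg _))) = _
    rw [s3, s6, one_smul, amp_mu_sg, s3, s6, one_smul]

end Pool.Agent.H.MP_ab5103_an
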